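import Pool.Agent.J4H69.K2.Stm

set_option autoImplicit false

namespace Pool.Agent.J4H28.K2

open Pool.Agent.J4H69.K1 Pool.Agent.J4H69.K2

theorem t_ND2 : S_ND2 := by
  intro I hI m s hind halg hnd H K hHK
  by_cases hK : K ∈ I
  · have hH : H ∉ I := by
      rcases hHK with h | h
      · exact h
      · exact absurd hK h
    obtain ⟨A, V, hA, hV⟩ := hnd H hH
    refine ⟨Polynomial.C A, by simpa using hA, fun ε hε G hG => ?_⟩
    have h1 := hε K hK
    rw [h1, mul_zero, add_zero] at hG
    have h2 := hε _ hV
    rw [map_sub, map_mul, hG, zero_mul, sub_zero, MvPolynomial.eval_rename] at h2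
    rw [Polynomial.map_C, Polynomial.eval_C]
    exact h2
  · obtain ⟨A, V, hA, hV⟩ := hnd K hK
    -- the fraction field
    let ψ : Pol →+* FractionRing (Pol ⧸ I) := (algebraMap (Pol ⧸ I) (FractionRing (Pol ⧸ I))).comp (Ideal.Quotient.mk I)
    have hψ : ∀ U : Pol, ψ U = 0 ↔ U ∈ I := by
      intro U
      constructor
      · intro h
        rw [← Ideal.Quotient.eq_zero_iff_mem]
        exact (IsFractionRing.injective (Pol ⧸ I) (FractionRing (Pol ⧸ I))) (by rw [map_zero]; exact h)
      · intro h
        have h1 := Ideal.Quotient.eq_zero_iff_mem.2 h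
        change algebraMap (Pol ⧸ I) (FractionRing (Pol ⧸ I)) (Ideal.Quotient.mk I U) = 0
        rw [h1, map_zero]
    let φ : MvPolynomial (Fin m) ℂ →+* Pol := (MvPolynomial.rename s : MvPolynomial (Fin m) ℂ →ₐ[ℂ] Pol).toRingHom
    letI : Algebra (MvPolynomial (Fin m) ℂ) (FractionRing (Pol ⧸ I)) := (ψ.comp φ).toAlgebra
    have halgmap : algebraMap (MvPolynomial (Fin m) ℂ) (FractionRing (Pol ⧸ I)) = ψ.comp φ := rfl
    have hal : ∀ U : Pol, IsAlgebraic (MvPolynomial (Fin m) ℂ) (ψ U) := by
      intro U
      obtain ⟨E, hE, hEU⟩ := halg U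
      refine ⟨E, hE, ?_⟩
      rw [Polynomial.aeval_def, halgmap, ← Polynomial.hom_eval₂, ← Polynomial.eval_map]
      exact (hψ _).2 hEU
    have hk : ψ K ≠ 0 := fun h => hK ((hψ K).1 h)
    have hg : IsAlgebraic (MvPolynomial (Fin m) ℂ) (-(ψ H) * (ψ K)⁻¹) :=
      (hal H).neg.mul (hal K).inv
    obtain ⟨E, hE, hEg⟩ := hg
    have hP : (∑ i ∈ Finset.range (E.natDegree + 1), φ (E.coeff i) * (-H) ^ i * K ^ (E.natDegree - i)) ∈ I := by
      rw [← hψ, map_sum]
      rw [Polynomial.aeval_def, halgmap, Polynomial.eval₂_eq_sum_range] at hEg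
      have h2 := congrArg (fun u => u * ψ K ^ E.natDegree) hEg
      simp only [zero_mul] at h2
      rw [Finset.sum_mul] at h2
      rw [← h2]
      refine Finset.sum_congr rfl fun i hi => ?_
      rw [Finset.mem_range] at hi
      rw [map_mul, map_mul, map_pow, map_pow, map_neg]
      have h3 : ψ K ^ E.natDegree = ψ K ^ i * ψ K ^ (E.natDegree - i) := by
        rw [← pow_add]
        congr 1
        omega
      have h5 : (ψ.comp φ) (E.coeff i) = ψ (φ (E.coeff i)) := rfl
      rw [h3, mul_pow, inv_pow, h5]
      generalize ψ (φ (E.coeff i)) = b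
      field_simp
    refine ⟨E * Polynomial.C A, mul_ne_zero hE (by simpa using hA), fun ε hε G hG => ?_⟩
    rw [Polynomial.map_mul, Polynomial.eval_mul, Polynomial.map_C, Polynomial.eval_C]
    by_cases hKε : MvPolynomial.eval ε K = 0
    · have h2 := hε _ hV
      rw [map_sub, map_mul, hKε, zero_mul, sub_zero, MvPolynomial.eval_rename] at h2
      have h3 : MvPolynomial.eval (fun k => ε (s k)) A = 0 := h2
      rw [h3, mul_zero]
    · have h2 := hε _ hP
      rw [map_sum] at h2
      have h3 : (∑ i ∈ Finset.range (E.natDegree + 1), MvPolynomial.eval (fun k => ε (s k)) (E.coeff i) * G ^ i) *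
          MvPolynomial.eval ε K ^ E.natDegree = 0 := by
        rw [Finset.sum_mul, ← h2]
        refine Finset.sum_congr rfl fun i hi => ?_
        rw [Finset.mem_range] at hi
        have h4 : MvPolynomial.eval ε (φ (E.coeff i)) = MvPolynomial.eval (fun k => ε (s k)) (E.coeff i) :=
          MvPolynomial.eval_rename _ _ _
        have h5 : MvPolynomial.eval ε (-H) = G * MvPolynomial.eval ε K := by
          rw [map_neg]
          linear_combination -hG
        have h6 : MvPolynomial.eval ε K ^ E.natDegree =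
            MvPolynomial.eval ε K ^ i * MvPolynomial.eval ε K ^ (E.natDegree - i) := by
          rw [← pow_add]
          congr 1
          omega
        rw [map_mul, map_mul, map_pow, map_pow, h4, h5, h6]
        ring
      have h7 := (mul_eq_zero.1 h3).resolve_right (pow_ne_zero _ hKε)
      have h8 : (E.map (MvPolynomial.eval fun k => ε (s k))).eval G = 0 := by
        rw [Polynomial.eval_map, Polynomial.eval₂_eq_sum_range]
        exact h7
      rw [h8, zero_mul]

end Pool.Agent.J4H28.K2
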